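import Pool.Agent.H36.PSys

open Pool.Agent.H38.NP Pool.Agent.H36.PSys

theorem Pool.Agent.Results.MP_a08d7f_lc.Hard.result : CoNPHardOn Valid Irred :=
  hard.coNPHardOn
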